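import Pool.Agent.Y628.FS.Cor

/-!
# The optimal makespan of a random permutation flow shop: exact asymptotics

The model (`completion`, `makespan`, `optMakespan`, `law`, `expectedError`, `IsTimeLaw`) is that of
the earlier result `SqrtLogUpperBound`, which proved the upper bound
`E[α^*_{m,n}] ≤ (√(2 σ² log m) + o(1)) √n` for fixed `m`.  Here the exact asymptotics are proved:
for every number `m ≥ 1` of machines and every law `F` with finite variance

  `E[α^*_{m,n}] = (σ e_m + o(1)) √n`   and   `P(α^*_{m,n} ≤ x √n) → Φ(x / σ) ^ m`,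

where `e_m = gmax m` is the expected maximum of `m` independent standard normal variables and
`Φ` is the standard normal distribution function; moreover `c √(log m) ≤ e_m ≤ √(2 log m)`.
-/

set_option autoImplicit false

open MeasureTheory ProbabilityTheory Filter Topology
open Pool.Agent.Results.MP_0b8746_pr.SqrtLogUpperBound Pool.Agent.Y628.FS

namespace Pool.Agent.Results.MP_0b8746_pr.SharpAsymptotics

/-- **Exact asymptotics of the optimal makespan.**  Let `F` be any law of the operation times, with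
mean `τ` and variance `σ²`, and let `gmax m` be the expected maximum of `m` independent standard
normal variables.
(1) For every `m ≥ 1`, `E[α^*_{m,n}] / √n → σ gmax m`.
(2) For every `m ≥ 1` and every `x`, `P(α^*_{m,n} ≤ x √n) → Φ(x / σ) ^ m`.
(3) `c₀ √(log m) ≤ gmax m ≤ √(2 log m)` for all `m ≥ 2`, with an absolute constant `c₀ > 0`.
(4) So Q1 is false, for every `F` and every large `m`: for every `c > 0` there is an `m₀` such that
for every `m ≥ m₀` and all large `n` (depending on `m`), `E[α^*_{m,n}] < c √(m n)`.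
(5) If the operation times are bounded by `K`, then
`E[α^*_{m,n}] ≤ √(2 σ² n log m) + 2 K log m + 5 K m²` whenever `m ≥ 2` and `n σ² ≥ 2 K² log m`.
(6) If the operation times are bounded, then for every `c > 0` there are `m₀` and `A` such that
`E[α^*_{m,n}] < c √(m n)` for all `m ≥ m₀` and all `n ≥ A m³`. -/
theorem result (F : Measure ℝ) (hF : IsTimeLaw F) :
    (∀ m : ℕ, 1 ≤ m → Tendsto (fun n : ℕ => expectedError F m n / Real.sqrt n) atTop
      (𝓝 (Real.sqrt Var[fun x : ℝ => x; F] * gmax m))) ∧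
    (∀ m : ℕ, 1 ≤ m → ∀ x : ℝ, Tendsto (fun n : ℕ => (law F m n).real
      {t | optMakespan t - ((n : ℝ) + m - 1) * ∫ x, x ∂F ≤ x * Real.sqrt n}) atTop
      (𝓝 (((gaussianReal 0 1).real (Set.Iic (x / Real.sqrt Var[fun x : ℝ => x; F]))) ^ m))) ∧
    (∃ c₀ : ℝ, 0 < c₀ ∧ ∀ m : ℕ, 2 ≤ m → c₀ * Real.sqrt (Real.log m) ≤ gmax m ∧
      gmax m ≤ Real.sqrt (2 * Real.log m)) ∧
    (∀ c : ℝ, 0 < c → ∃ m₀ : ℕ, ∀ m ≥ m₀, ∃ n₀ : ℕ, ∀ n ≥ n₀,
      expectedError F m n < c * Real.sqrt (m * n)) ∧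
    ∀ K : ℝ, (∀ᵐ x ∂F, x ≤ K) →
      (∀ m n : ℕ, 2 ≤ m → 1 ≤ n → 2 * K ^ 2 * Real.log m ≤ n * Var[fun x : ℝ => x; F] →
        expectedError F m n ≤ Real.sqrt (2 * Var[fun x : ℝ => x; F] * n * Real.log m) +
          2 * K * Real.log m + 5 * K * m ^ 2) ∧
      ∀ c : ℝ, 0 < c → ∃ (m₀ : ℕ) (A : ℝ), ∀ m ≥ m₀, ∀ n : ℕ, A * m ^ 3 ≤ n →
        expectedError F m n < c * Real.sqrt (m * n) := by
  obtain ⟨c₀, hc₀, h3⟩ := gmax_lower
  exact ⟨fun m hm => mean_limit hF hm, fun m hm x => law_limit hF hm x,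
    ⟨c₀, hc₀, fun m hm => ⟨h3 m hm, gmax_upper hm⟩⟩, fun c hc => fails hF c hc,
    fun K hK => ⟨fun m n hm hn h => bounded_upper hF hK hm hn h,
      fun c hc => fails_bounded hF hK c hc⟩⟩

end Pool.Agent.Results.MP_0b8746_pr.SharpAsymptotics
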